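import Pool.Agent.H65.CRZ.TN
import Pool.Agent.H81.CV.GL
import Pool.Agent.H86.CV.GU
import Pool.Agent.H86.CV.DV

/-!
# Row GA of the board `crz_modules`: the asymptotic formula for `G`
-/

set_option autoImplicit false

open NumberField Filter Topology

namespace Pool.Agent.H97.CRZ

open Pool.Agent.H65.CRZ Pool.Agent.H37.CV Pool.Agent.H28.RC Pool.Agent.H25.HK
open Pool.Agent.H81.CV (TT mem_TT card_TT_tendsto mem_PM)
open Pool.Agent.H3.CV (nm_mul nm_idS mem_pf idS_ne idS_le)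
open Pool.Agent.H96.CV (one_le_nm nm_pos two_le_np nS_pos one_le_nS fS_pos)

section NF

variable {K : Type} [Field K] [NumberField K]

lemma nS_mono {S T : Finset (PrI K)} (h : S ⊆ T) : nS np S ≤ nS np T := by
  classical
  have h1 : nS np T = nS np (T \ S) * nS np S := by
    unfold nS
    rw [Finset.prod_sdiff h]
  rw [h1]
  have h2 := one_le_nS (T \ S)
  have h3 := nS_pos S
  nlinarith

/-- each ideal is the product of a squarefree ideal and a square -/
lemma sq_dec (I : Ideal (𝓞 K)) : I ≠ ⊥ → ∃ (T : Finset (PrI K)) (m : Ideal (𝓞 K)),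
    I = idS T * m ^ 2 ∧ ∀ P ∈ T, I ≤ P.1 := by
  classical
  induction I using UniqueFactorizationMonoid.induction_on_prime with
  | h₁ => intro h; exact absurd rfl h
  | h₂ x hx =>
    intro _
    refine ⟨∅, ⊤, ?_, by simp⟩
    have h : x = ⊤ := by rwa [Ideal.isUnit_iff] at hx
    rw [h]
    simp [idS, ← Ideal.one_eq_top]
  | h₃ J p hJ hp ih =>
    intro _
    obtain ⟨T, m, h1, h2⟩ := ih hJ
    have hpp : p.IsPrime := Ideal.isPrime_of_prime hp
    obtain ⟨P, hP⟩ : ∃ P : PrI K, P.1 = p := ⟨⟨p, hpp, hp.ne_zero⟩, rfl⟩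
    by_cases hPT : P ∈ T
    · refine ⟨T.erase P, p * m, ?_, ?_⟩
      · have h3 : idS T = p * idS (T.erase P) := by
          unfold idS
          rw [← Finset.mul_prod_erase _ _ hPT, hP]
        rw [h1, h3]
        ring
      · intro Q hQ
        exact Ideal.mul_le_right.trans (h2 Q (Finset.mem_of_mem_erase hQ))
    · refine ⟨insert P T, m, ?_, ?_⟩
      · have h3 : idS (insert P T) = p * idS T := by
          unfold idS
          rw [Finset.prod_insert hPT, hP]
        rw [h3, h1]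
        ring
      · intro Q hQ
        rcases Finset.mem_insert.1 hQ with rfl | h
        · rw [hP]
          exact Ideal.mul_le_left
        · exact Ideal.mul_le_right.trans (h2 Q h)

/-- partial sums of the sum over the ideals with the prime divisors `S` -/
lemma ex_F (E : ℕ) (S : Finset (PrI K)) : ∃ F : Finset (Ideal (𝓞 K)),
    (∀ I ∈ F, I ≠ ⊥ ∧ ∀ P : PrI K, I ≤ P.1 ↔ P ∈ S) ∧
    ∏ P ∈ S, ∑ a ∈ Finset.Icc 1 E, (np P ^ a)⁻¹ ≤ ∑ I ∈ F, (nm I)⁻¹ := by
  classical
  induction S using Finset.induction_on with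
  | empty =>
    refine ⟨{⊤}, ?_, ?_⟩
    · intro I hI
      rw [Finset.mem_singleton] at hI
      subst hI
      refine ⟨top_ne_bot, fun P => ?_⟩
      constructor
      · intro h
        exact absurd (top_le_iff.1 h) P.2.1.ne_top
      · intro h
        simp at h
    · simp [nm]
  | insert P S hPS ih =>
    obtain ⟨F, hF, hs⟩ := ih
    have hPp : Prime P.1 := Ideal.prime_of_isPrime P.2.2 P.2.1
    have hnd : ∀ J ∈ F, ¬ P.1 ∣ J := by
      intro J hJ h
      exact hPS (((hF J hJ).2 P).1 (Ideal.dvd_iff_le.1 h))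
    have key : ∀ (a b : ℕ) (J J' : Ideal (𝓞 K)), J ∈ F → J' ∈ F → a ≤ b →
        P.1 ^ a * J = P.1 ^ b * J' → a = b ∧ J = J' := by
      intro a b J J' hJ hJ' hab h
      obtain ⟨c, rfl⟩ := Nat.exists_eq_add_of_le hab
      rw [pow_add, mul_assoc] at h
      have h1 : J = P.1 ^ c * J' := mul_left_cancel₀ (pow_ne_zero a hPp.ne_zero) h
      rcases Nat.eq_zero_or_pos c with rfl | hc
      · rw [pow_zero, one_mul] at h1
        exact ⟨rfl, h1⟩
      · exfalso
        refine hnd J hJ ?_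
        rw [h1]
        exact (dvd_pow_self _ (by omega)).trans (dvd_mul_right _ _)
    have hinj : Set.InjOn (fun x : ℕ × Ideal (𝓞 K) => P.1 ^ x.1 * x.2)
        ((Finset.Icc 1 E ×ˢ F : Finset (ℕ × Ideal (𝓞 K))) : Set (ℕ × Ideal (𝓞 K))) := by
      rintro ⟨a, J⟩ hx ⟨b, J'⟩ hy h
      rw [Finset.mem_coe, Finset.mem_product] at hx hy
      simp only at h hx hy
      rcases le_total a b with hab | hab
      · obtain ⟨h1, h2⟩ := key a b J J' hx.2 hy.2 hab h
        rw [h1, h2]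
      · obtain ⟨h1, h2⟩ := key b a J' J hy.2 hx.2 hab h.symm
        rw [h1, h2]
    refine ⟨(Finset.Icc 1 E ×ˢ F).image fun x => P.1 ^ x.1 * x.2, ?_, ?_⟩
    · intro I hI
      obtain ⟨⟨a, J⟩, hx, rfl⟩ := Finset.mem_image.1 hI
      rw [Finset.mem_product, Finset.mem_Icc] at hx
      obtain ⟨⟨ha, -⟩, hJ⟩ := hx
      simp only at ha hJ ⊢
      obtain ⟨hJ0, hJS⟩ := hF J hJ
      refine ⟨mul_ne_zero (pow_ne_zero a hPp.ne_zero) hJ0, fun Q => ?_⟩
      constructor
      · intro h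
        rcases (Ideal.IsPrime.mul_le Q.2.1).1 h with h2 | h2
        · have h3 : P.1 ≤ Q.1 := by
            have := Q.2.1
            exact Ideal.IsPrime.le_of_pow_le h2
          have hPm : P.1.IsMaximal := P.2.1.isMaximal P.2.2
          have h4 : P.1 = Q.1 := hPm.eq_of_le Q.2.1.ne_top h3
          rw [← Subtype.ext h4]
          exact Finset.mem_insert_self P S
        · exact Finset.mem_insert_of_mem ((hJS Q).1 h2)
      · intro h
        rcases Finset.mem_insert.1 h with rfl | h3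
        · exact Ideal.mul_le_left.trans (Ideal.pow_le_self (by omega))
        · exact Ideal.mul_le_right.trans ((hJS Q).2 h3)
    · rw [Finset.sum_image hinj, Finset.prod_insert hPS]
      have h1 : ∑ x ∈ Finset.Icc 1 E ×ˢ F, (nm (P.1 ^ x.1 * x.2))⁻¹ =
          (∑ a ∈ Finset.Icc 1 E, (np P ^ a)⁻¹) * ∑ I ∈ F, (nm I)⁻¹ := by
        rw [Finset.sum_mul_sum, Finset.sum_product]
        refine Finset.sum_congr rfl fun a _ => Finset.sum_congr rfl fun J _ => ?_
        rw [nm_mul, Pool.Agent.H81.CV.nm_pow, mul_inv]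
        rfl
      rw [h1]
      refine mul_le_mul_of_nonneg_left hs (Finset.sum_nonneg fun a _ => ?_)
      have := two_le_np P
      positivity

lemma log_aux {y : ℝ} (hy : 1 ≤ y) : (y ^ 2)⁻¹ * (1 + Real.log (y ^ 2)) ≤
    4 * y ^ (-(3 / 2) : ℝ) := by
  have hy0 : 0 < y := by linarith
  have h1 : Real.log (y ^ 2) ≤ 4 * y ^ (1 / 2 : ℝ) - 4 := by
    have h2 : Real.log (y ^ (1 / 2 : ℝ)) ≤ y ^ (1 / 2 : ℝ) - 1 :=
      Real.log_le_sub_one_of_pos (by positivity)
    rw [Real.log_rpow hy0] at h2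
    rw [Real.log_pow]
    push_cast
    linarith
  have h3 : (y ^ 2)⁻¹ * (4 * y ^ (1 / 2 : ℝ)) = 4 * y ^ (-(3 / 2) : ℝ) := by
    have h4 : (y ^ 2)⁻¹ = y ^ (-2 : ℝ) := by
      rw [Real.rpow_neg hy0.le, Real.rpow_two]
    have h5 : y ^ (-(3 / 2) : ℝ) = y ^ (-2 : ℝ) * y ^ (1 / 2 : ℝ) := by
      rw [← Real.rpow_add hy0]
      norm_num
    rw [h4, h5]
    ring
  rw [← h3]
  refine mul_le_mul_of_nonneg_left ?_ (by positivity)
  linarith

/-- the ideals with small radical -/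
lemma tail (K : Type) [Field K] [NumberField K] : ∃ C : ℝ, ∀ x : ℝ, 1 ≤ x →
    ∀ F : Finset (Ideal (𝓞 K)), (∀ I ∈ F, I ≠ ⊥ ∧ nS np (pf I) ≤ x) →
    ∑ I ∈ F, (nm I)⁻¹ ≤ ∑ I ∈ TT K ⌊x⌋₊, (nm I)⁻¹ + C := by
  classical
  obtain ⟨-, C0, hC0⟩ := Pool.Agent.H86.CV.pf_DV K
  obtain ⟨C, hCnn, hC⟩ : ∃ C : ℝ, 0 ≤ C ∧ ∀ (x : ℝ) (X : Finset (Ideal (𝓞 K))), 1 ≤ x →
      (∀ I ∈ X, I ≠ ⊥ ∧ nm I ≤ x) → (X.card : ℝ) ≤ C * x :=
    ⟨max C0 0, le_max_right _ _, fun x X hx hX => ((hC0 x X hx hX).1).trans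
      (mul_le_mul_of_nonneg_right (le_max_left _ _) (by linarith))⟩
  obtain ⟨B, hBeq⟩ : ∃ B : ℝ, B = 2 * C * (1 - (2 : ℝ) ^ (-(1 / 2) : ℝ))⁻¹ := ⟨_, rfl⟩
  have hB : ∀ X : Finset (Ideal (𝓞 K)), (∀ I ∈ X, I ≠ ⊥) →
      ∑ I ∈ X, (nm I) ^ (-(3 / 2) : ℝ) ≤ B := fun X hX => by
    rw [hBeq]; exact Pool.Agent.H86.CV.gu_conv C hCnn hC X hX
  refine ⟨16 * C * B, fun x hx F hF => ?_⟩
  rw [← Finset.sum_filter_add_sum_filter_not F (fun I => nm I ≤ x)]
  refine add_le_add ?_ ?_
  · refine Finset.sum_le_sum_of_subset_of_nonneg (fun I hI => ?_) fun I _ _ => ?_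
    · rw [Finset.mem_filter] at hI
      rw [mem_TT]
      refine ⟨(hF I hI.1).1, Nat.le_floor ?_⟩
      exact hI.2
    · unfold nm
      positivity
  · set F₂ := F.filter (fun I => ¬ nm I ≤ x) with hF₂
    have hdec : ∀ I : Ideal (𝓞 K), ∃ (T : Finset (PrI K)) (m : Ideal (𝓞 K)), I ∈ F₂ →
        I = idS T * m ^ 2 ∧ ∀ P ∈ T, I ≤ P.1 := by
      intro I
      by_cases hI : I ∈ F₂
      · obtain ⟨T, m, h⟩ := sq_dec I (hF I (Finset.mem_filter.1 hI).1).1
        exact ⟨T, m, fun _ => h⟩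
      · exact ⟨∅, ⊤, fun h => absurd h hI⟩
    choose T m hdec using hdec
    have hm0 : ∀ I ∈ F₂, m I ≠ ⊥ := by
      intro I hI h
      apply (hF I (Finset.mem_filter.1 hI).1).1
      rw [(hdec I hI).1, h]
      simp
    have hval : ∀ I ∈ F₂, (nm I)⁻¹ = (nm (m I) ^ 2)⁻¹ * (nm (idS (T I)))⁻¹ := by
      intro I hI
      conv_lhs => rw [(hdec I hI).1]
      rw [nm_mul, Pool.Agent.H81.CV.nm_pow, mul_inv, mul_comm]
    rw [← Finset.sum_fiberwise_of_maps_to (s := F₂) (t := F₂.image m) (g := m)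
      (fun I hI => Finset.mem_image_of_mem m hI)]
    have h1 : ∀ μ ∈ F₂.image m, ∑ I ∈ F₂.filter (fun I => m I = μ), (nm I)⁻¹ ≤
        16 * C * (nm μ) ^ (-(3 / 2) : ℝ) := by
      intro μ hμ
      obtain ⟨I₀, hI₀, rfl⟩ := Finset.mem_image.1 hμ
      set μ := m I₀ with hμdef
      have hμ0 : μ ≠ ⊥ := hm0 I₀ hI₀
      have hμ1 : 1 ≤ nm μ := one_le_nm hμ0
      have h2 : ∑ I ∈ F₂.filter (fun I => m I = μ), (nm I)⁻¹ =
          (nm μ ^ 2)⁻¹ * ∑ s ∈ (F₂.filter (fun I => m I = μ)).image (fun I => idS (T I)),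
            (nm s)⁻¹ := by
        rw [Finset.sum_image, Finset.mul_sum]
        · refine Finset.sum_congr rfl fun I hI => ?_
          rw [Finset.mem_filter] at hI
          rw [hval I hI.1, hI.2]
        · intro I hI I' hI' h
          rw [Finset.mem_coe, Finset.mem_filter] at hI hI'
          simp only at h
          rw [(hdec I hI.1).1, (hdec I' hI'.1).1, hI.2, hI'.2, h]
      have h3 := Pool.Agent.H86.CV.gu_range C hCnn hC x (nm μ ^ 2) (one_le_pow₀ hμ1)
        ((F₂.filter (fun I => m I = μ)).image (fun I => idS (T I))) (by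
          intro s hs
          obtain ⟨I, hI, rfl⟩ := Finset.mem_image.1 hs
          rw [Finset.mem_filter] at hI
          refine ⟨idS_ne _, ?_, ?_⟩
          · rw [div_lt_iff₀ (by positivity)]
            have h4 : x < nm I := not_le.1 (Finset.mem_filter.1 hI.1).2
            rwa [(hdec I hI.1).1, nm_mul, Pool.Agent.H81.CV.nm_pow, hI.2] at h4
          · obtain ⟨hI0, hIx⟩ := hF I (Finset.mem_filter.1 hI.1).1
            rw [nm_idS]
            refine le_trans ?_ hIx
            refine nS_mono fun P hP => ?_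
            rw [mem_pf hI0]
            exact (hdec I hI.1).2 P hP)
      rw [h2]
      calc (nm μ ^ 2)⁻¹ * ∑ s ∈ (F₂.filter (fun I => m I = μ)).image (fun I => idS (T I)),
            (nm s)⁻¹ ≤ (nm μ ^ 2)⁻¹ * (4 * C * (1 + Real.log (nm μ ^ 2))) :=
            mul_le_mul_of_nonneg_left h3 (by positivity)
        _ = 4 * C * ((nm μ ^ 2)⁻¹ * (1 + Real.log (nm μ ^ 2))) := by ring
        _ ≤ 4 * C * (4 * (nm μ) ^ (-(3 / 2) : ℝ)) :=
            mul_le_mul_of_nonneg_left (log_aux hμ1) (by positivity)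
        _ = _ := by ring
    refine (Finset.sum_le_sum h1).trans ?_
    rw [← Finset.mul_sum]
    refine mul_le_mul_of_nonneg_left (hB _ fun I hI => ?_) (by positivity)
    obtain ⟨I', hI', rfl⟩ := Finset.mem_image.1 hI
    exact hm0 I' hI'

lemma tele_eq (N m : ℕ) (hN : 1 ≤ N) (hm : N ≤ m) :
    (1 : ℝ) / N = ∑ n ∈ Finset.Ico N m, (1 : ℝ) / (n * (n + 1)) + 1 / m := by
  induction m, hm using Nat.le_induction with
  | base => simp
  | succ m hm ih =>
    rw [Finset.sum_Ico_succ_top hm, ih]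
    have h1 : (0 : ℝ) < m := by exact_mod_cast (by omega : 0 < m)
    push_cast
    field_simp
    ring

/-- partial summation -/
lemma sum_TT_eq (m : ℕ) : ∑ I ∈ TT K m, (nm I)⁻¹ =
    ∑ n ∈ Finset.Ico 1 m, ((TT K n).card : ℝ) / (n * (n + 1)) + (TT K m).card / m := by
  classical
  have h1 : ∀ n ∈ Finset.Ico 1 m, ((TT K n).card : ℝ) / (n * (n + 1)) =
      ∑ I ∈ TT K m, (if Ideal.absNorm I ≤ n then (1 : ℝ) / (n * (n + 1)) else 0) := by
    intro n hn
    rw [Finset.mem_Ico] at hn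
    rw [← Finset.sum_filter, Finset.sum_const, nsmul_eq_mul]
    have h2 : (TT K m).filter (fun I => Ideal.absNorm I ≤ n) = TT K n := by
      ext I
      rw [Finset.mem_filter, mem_TT, mem_TT]
      constructor
      · rintro ⟨⟨h3, -⟩, h4⟩; exact ⟨h3, h4⟩
      · rintro ⟨h3, h4⟩; exact ⟨⟨h3, by omega⟩, h4⟩
    rw [h2]
    ring
  have h0 : ((TT K m).card : ℝ) / m = ∑ I ∈ TT K m, (1 : ℝ) / m := by
    rw [Finset.sum_const, nsmul_eq_mul]
    ring
  rw [Finset.sum_congr rfl h1, Finset.sum_comm, h0, ← Finset.sum_add_distrib]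
  refine Finset.sum_congr rfl fun I hI => ?_
  obtain ⟨hI0, hIm⟩ := mem_TT.1 hI
  have h3 : Ideal.absNorm I ≠ 0 := fun h => hI0 (Ideal.absNorm_eq_zero_iff.1 h)
  rw [← Finset.sum_filter]
  have h4 : (Finset.Ico 1 m).filter (fun n => Ideal.absNorm I ≤ n) =
      Finset.Ico (Ideal.absNorm I) m := by
    ext n
    rw [Finset.mem_filter, Finset.mem_Ico, Finset.mem_Ico]
    omega
  rw [h4, ← tele_eq _ m (by omega) hIm]
  unfold nm
  rw [one_div]

lemma harm_le (m : ℕ) (h : 1 ≤ m) :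
    ∑ n ∈ Finset.Ico 1 m, (1 : ℝ) / (n + 1) ≤ Real.log m := by
  induction m, h using Nat.le_induction with
  | base => simp
  | succ m hm ih =>
    rw [Finset.sum_Ico_succ_top hm]
    have h1 : (0 : ℝ) < (m : ℝ) := by exact_mod_cast (by omega : 0 < m)
    have h2 : 1 / ((m : ℝ) + 1) ≤ Real.log ((m : ℝ) + 1) - Real.log m := by
      have h3 := Real.log_le_sub_one_of_pos (show (0 : ℝ) < m / (m + 1) by positivity)
      rw [Real.log_div h1.ne' (by positivity)] at h3
      have h4 : (m : ℝ) / (m + 1) - 1 = -(1 / ((m : ℝ) + 1)) := by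
        field_simp
        ring
      linarith
    push_cast
    linarith

lemma H_le (K : Type) [Field K] [NumberField K] (ε : ℝ) (hε : 0 < ε) : ∃ C : ℝ, ∀ m : ℕ, 1 ≤ m →
    ∑ I ∈ TT K m, (nm I)⁻¹ ≤ (rho K + ε) * Real.log m + C := by
  classical
  have hρ : 0 < rho K := NumberField.dedekindZeta_residue_pos K
  obtain ⟨-, C0, hC0⟩ := Pool.Agent.H86.CV.pf_DV K
  have hcard0 : ∀ n : ℕ, 1 ≤ n → ((TT K n).card : ℝ) ≤ C0 * n := by
    intro n hn
    refine (hC0 n (TT K n) (by exact_mod_cast hn) fun I hI => ?_).1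
    rw [mem_TT] at hI
    exact ⟨hI.1, by unfold nm; exact_mod_cast hI.2⟩
  have hC00 : 0 ≤ C0 := by
    have h1 := hcard0 1 le_rfl
    have h2 : (0 : ℝ) ≤ (TT K 1).card := Nat.cast_nonneg _
    push_cast at h1
    linarith
  have hev := (card_TT_tendsto (K := K)).eventually
    (eventually_le_nhds (show rho K < rho K + ε by linarith))
  obtain ⟨n₀, hn₀⟩ := eventually_atTop.1 hev
  refine ⟨C0 * n₀ + C0, fun m hm => ?_⟩
  have hm0 : (0 : ℝ) < m := by exact_mod_cast (by omega : 0 < m)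
  rw [sum_TT_eq]
  have h1 : ((TT K m).card : ℝ) / m ≤ C0 := by
    rw [div_le_iff₀ hm0]
    exact hcard0 m hm
  have h2 : ∑ n ∈ Finset.Ico 1 m, ((TT K n).card : ℝ) / (n * (n + 1)) ≤
      ∑ n ∈ Finset.Ico 1 m, ((rho K + ε) * (1 / ((n : ℝ) + 1)) + if n < n₀ then C0 else 0) := by
    refine Finset.sum_le_sum fun n hn => ?_
    rw [Finset.mem_Ico] at hn
    have hn0 : (0 : ℝ) < n := by exact_mod_cast (by omega : 0 < n)
    have hn1 : (1 : ℝ) ≤ n := by exact_mod_cast hn.1
    by_cases h : n < n₀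
    · rw [if_pos h]
      have h3 : ((TT K n).card : ℝ) / (n * (n + 1)) ≤ C0 := by
        rw [div_le_iff₀ (by positivity)]
        refine (hcard0 n hn.1).trans ?_
        have : (n : ℝ) ≤ n * (n + 1) := by nlinarith
        exact mul_le_mul_of_nonneg_left this hC00
      have h4 : 0 ≤ (rho K + ε) * (1 / ((n : ℝ) + 1)) := by positivity
      linarith
    · rw [if_neg h, add_zero]
      have h3 := hn₀ n (not_lt.1 h)
      rw [div_le_iff₀ hn0] at h3
      rw [div_le_iff₀ (by positivity)]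
      calc ((TT K n).card : ℝ) ≤ (rho K + ε) * n := h3
        _ = (rho K + ε) * (1 / ((n : ℝ) + 1)) * (n * (n + 1)) := by field_simp
  have h3 : ∑ n ∈ Finset.Ico 1 m, (if n < n₀ then C0 else 0) ≤ C0 * n₀ := by
    rw [← Finset.sum_filter, Finset.sum_const, nsmul_eq_mul, mul_comm]
    refine mul_le_mul_of_nonneg_left ?_ hC00
    have h4 : ((Finset.Ico 1 m).filter (fun n => n < n₀)).card ≤ (Finset.range n₀).card := by
      refine Finset.card_le_card fun n hn => ?_
      rw [Finset.mem_filter] at hn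
      exact Finset.mem_range.2 hn.2
    rw [Finset.card_range] at h4
    exact_mod_cast h4
  rw [Finset.sum_add_distrib, ← Finset.mul_sum] at h2
  have h4 := mul_le_mul_of_nonneg_left (harm_le m hm) (show 0 ≤ rho K + ε by linarith)
  linarith

lemma DS_eq {M x : ℝ} (hx : x ≤ M) : DS np (PM K M) x = DS np (PM K x) x := by
  classical
  ext S
  unfold DS
  rw [Finset.mem_filter, Finset.mem_filter, Finset.mem_powerset, Finset.mem_powerset]
  constructor
  · rintro ⟨-, h2⟩
    refine ⟨fun P hP => ?_, h2⟩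
    rw [mem_PM]
    refine le_trans ?_ h2
    have h3 := nS_mono (Finset.singleton_subset_iff.2 hP)
    unfold nS at h3
    rwa [Finset.prod_singleton] at h3
  · rintro ⟨h1, h2⟩
    refine ⟨fun P hP => ?_, h2⟩
    have := h1 hP
    rw [mem_PM] at this ⊢
    linarith

lemma geom_tendsto {y : ℝ} (hy : 1 < y) :
    Tendsto (fun E : ℕ => ∑ a ∈ Finset.Icc 1 E, (y ^ a)⁻¹) atTop (𝓝 (y - 1)⁻¹) := by
  have h1 : ∀ E : ℕ, ∑ a ∈ Finset.Icc 1 E, (y ^ a)⁻¹ = (y - 1)⁻¹ * (1 - (y⁻¹) ^ E) := by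
    intro E
    induction E with
    | zero => simp
    | succ E ih =>
      rw [Finset.sum_Icc_succ_top (by omega), ih]
      have h2 : y - 1 ≠ 0 := by linarith
      have h3 : y ≠ 0 := by linarith
      rw [inv_pow, inv_pow, pow_succ]
      have h4 : y ^ E ≠ 0 := pow_ne_zero _ h3
      field_simp
      ring
  have h2 : Tendsto (fun E : ℕ => (y - 1)⁻¹ * (1 - (y⁻¹) ^ E)) atTop
      (𝓝 ((y - 1)⁻¹ * (1 - 0))) := by
    refine Tendsto.const_mul _ (tendsto_const_nhds.sub ?_)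
    exact tendsto_pow_atTop_nhds_zero_of_lt_one (by positivity) (inv_lt_one_of_one_lt₀ hy)
  rw [sub_zero, mul_one] at h2
  exact h2.congr fun E => (h1 E).symm

/-- the upper bound of `G` -/
lemma G_le (K : Type) [Field K] [NumberField K] : ∃ C : ℝ, ∀ M x : ℝ, 1 ≤ x →
    GS np (PM K M) x ≤ ∑ I ∈ TT K ⌊x⌋₊, (nm I)⁻¹ + C := by
  classical
  obtain ⟨C, hC⟩ := tail K
  refine ⟨C, fun M x hx => ?_⟩
  have h1 : Tendsto (fun E : ℕ => ∑ S ∈ DS np (PM K M) x, ∏ P ∈ S, ∑ a ∈ Finset.Icc 1 E,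
      (np P ^ a)⁻¹) atTop (𝓝 (GS np (PM K M) x)) := by
    unfold GS
    refine tendsto_finsetSum _ fun S _ => ?_
    have h2 : (fS np S)⁻¹ = ∏ P ∈ S, (np P - 1)⁻¹ := by
      unfold fS
      rw [Finset.prod_inv_distrib]
    rw [h2]
    refine tendsto_finsetProd _ fun P _ => geom_tendsto ?_
    have := two_le_np P
    linarith
  refine le_of_tendsto' h1 fun E => ?_
  choose F hF1 hF2 using fun S : Finset (PrI K) => ex_F (K := K) E S
  have hpf : ∀ S, ∀ I ∈ F S, pf I = S := by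
    intro S I hI
    ext P
    rw [mem_pf (hF1 S I hI).1, (hF1 S I hI).2]
  calc ∑ S ∈ DS np (PM K M) x, ∏ P ∈ S, ∑ a ∈ Finset.Icc 1 E, (np P ^ a)⁻¹
      ≤ ∑ S ∈ DS np (PM K M) x, ∑ I ∈ F S, (nm I)⁻¹ := Finset.sum_le_sum fun S _ => hF2 S
    _ = ∑ I ∈ (DS np (PM K M) x).biUnion F, (nm I)⁻¹ := by
        rw [Finset.sum_biUnion]
        intro S _ S' _ hSS
        rw [Function.onFun, Finset.disjoint_left]
        intro I hI hI'
        exact hSS ((hpf S I hI).symm.trans (hpf S' I hI'))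
    _ ≤ _ := by
        refine hC x hx _ fun I hI => ?_
        obtain ⟨S, hS, hI⟩ := Finset.mem_biUnion.1 hI
        refine ⟨(hF1 S I hI).1, ?_⟩
        rw [hpf S I hI]
        unfold DS at hS
        exact (Finset.mem_filter.1 hS).2

end NF

theorem pf_GA : Pool.Agent.H65.CRZ.T_GA := by
  classical
  intro K _ _ η hη
  have hρ : 0 < rho K := NumberField.dedekindZeta_residue_pos K
  obtain ⟨C₁, hC₁⟩ := G_le K
  obtain ⟨C₂, hC₂⟩ := H_le K (η / 2) (by positivity)
  obtain ⟨x₀, hx₀, hlow⟩ := Pool.Agent.H81.CV.pf_GL K (η / rho K) (by positivity)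
  set D : ℝ := max (|C₁| + |C₂|) (rho K * Real.log x₀) with hD
  have hD0 : 0 ≤ D := le_trans (by positivity) (le_max_left _ _)
  refine ⟨max 2 (Real.exp (2 * D / η)), le_max_left _ _, fun M x hM hx hxM => ?_⟩
  have hM2 : 2 ≤ M := (le_max_left _ _).trans hM
  have hM0 : 0 < M := by linarith
  have hDM : D ≤ η / 2 * Real.log M := by
    have h1 : 2 * D / η ≤ Real.log M := by
      rw [Real.le_log_iff_exp_le hM0]
      exact (le_max_right _ _).trans hM
    rw [div_le_iff₀ hη] at h1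
    linarith
  have hlx : 0 ≤ Real.log x := Real.log_nonneg hx
  have hlxM : Real.log x ≤ Real.log M := Real.log_le_log (by linarith) hxM
  rw [abs_le]
  constructor
  · -- the lower bound
    have hG0 : 0 ≤ GS np (PM K M) x := by
      unfold GS
      exact Finset.sum_nonneg fun S _ => (inv_pos.2 (fS_pos S)).le
    rcases le_total x₀ x with h | h
    · have h1 := hlow x h
      have h2 : GS np (PM K M) x = GS np (PM K x) x := by
        unfold GS
        rw [DS_eq hxM]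
      rw [h2]
      have h3 : (1 - η / rho K) * rho K * Real.log x = rho K * Real.log x - η * Real.log x := by
        field_simp
      have h4 : η * Real.log x ≤ η * Real.log M := mul_le_mul_of_nonneg_left hlxM hη.le
      linarith
    · have h1 : rho K * Real.log x ≤ rho K * Real.log x₀ :=
        mul_le_mul_of_nonneg_left (Real.log_le_log (by linarith) h) hρ.le
      have h2 : rho K * Real.log x₀ ≤ D := le_max_right _ _
      have h3 : 0 ≤ Real.log M := by linarith
      have h4 : 0 ≤ η / 2 * Real.log M := by positivity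
      linarith
  · -- the upper bound
    have h1 := hC₁ M x hx
    have hfl : 1 ≤ ⌊x⌋₊ := Nat.one_le_floor_iff x |>.2 hx
    have h2 := hC₂ ⌊x⌋₊ hfl
    have h3 : Real.log ⌊x⌋₊ ≤ Real.log x := by
      refine Real.log_le_log (by exact_mod_cast hfl) (Nat.floor_le (by linarith))
    have h4 : (rho K + η / 2) * Real.log ⌊x⌋₊ ≤ (rho K + η / 2) * Real.log x :=
      mul_le_mul_of_nonneg_left h3 (by linarith)
    have h5 : |C₁| + |C₂| ≤ D := le_max_left _ _
    have h6 := le_abs_self C₁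
    have h7 := le_abs_self C₂
    have h8 : η / 2 * Real.log x ≤ η / 2 * Real.log M :=
      mul_le_mul_of_nonneg_left hlxM (by linarith)
    nlinarith

end Pool.Agent.H97.CRZ
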